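import Mathlib

set_option autoImplicit false

namespace Pool.Agent.Results.MP_64c48d_gt.FlatNil

def lin (k : ℝ) : (Fin 3 → ℝ) ≃ₗ[ℝ] (Fin 3 → ℝ) where
  toFun v := ![v 0, v 1 + 2 * k * v 0, v 2 + 2 * k * v 1 + 2 * k ^ 2 * v 0]
  invFun v := ![v 0, v 1 - 2 * k * v 0, v 2 - 2 * k * v 1 + 2 * k ^ 2 * v 0]
  map_add' v w := by ext i; fin_cases i <;> simp <;> ring
  map_smul' c v := by ext i; fin_cases i <;> simp <;> ring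
  left_inv v := by ext i; fin_cases i <;> simp <;> ring
  right_inv v := by ext i; fin_cases i <;> simp <;> ring

noncomputable def aff (m : ℤ × ℤ × ℤ) : (Fin 3 → ℝ) ≃ᵃ[ℝ] (Fin 3 → ℝ) :=
  (lin m.1).toAffineEquiv.trans (AffineEquiv.constVAdd ℝ _ ![(m.1 : ℝ), m.2.1, m.2.2])

theorem aff_apply (m : ℤ × ℤ × ℤ) (v : Fin 3 → ℝ) : aff m v =
    ![v 0 + m.1, v 1 + 2 * m.1 * v 0 + m.2.1, v 2 + 2 * m.1 * v 1 + 2 * m.1 ^ 2 * v 0 + m.2.2] := by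
  ext i; fin_cases i <;> simp [aff, lin] <;> ring

theorem aff_lin (m : ℤ × ℤ × ℤ) (v : Fin 3 → ℝ) : (aff m).linear v =
    ![v 0, v 1 + 2 * m.1 * v 0, v 2 + 2 * m.1 * v 1 + 2 * m.1 ^ 2 * v 0] := rfl

theorem aff_mul (m n : ℤ × ℤ × ℤ) : aff m * aff n = aff (m.1 + n.1, m.2.1 + n.2.1 + 2 * m.1 * n.1,
    m.2.2 + n.2.2 + 2 * m.1 * n.2.1 + 2 * m.1 ^ 2 * n.1) := by
  ext v i
  rw [AffineEquiv.coe_mul, Function.comp_apply]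
  fin_cases i <;> simp [aff_apply] <;> ring

theorem aff_zero : aff 0 = 1 := by
  ext v i
  fin_cases i <;> simp [aff_apply]

noncomputable def Gam : Subgroup ((Fin 3 → ℝ) ≃ᵃ[ℝ] (Fin 3 → ℝ)) where
  carrier := Set.range aff
  mul_mem' := by
    rintro _ _ ⟨m, rfl⟩ ⟨n, rfl⟩
    exact ⟨_, (aff_mul m n).symm⟩
  one_mem' := ⟨0, aff_zero⟩
  inv_mem' := by
    rintro _ ⟨m, rfl⟩
    refine ⟨(-m.1, 2 * m.1 ^ 2 - m.2.1, 2 * m.1 * m.2.1 - m.2.2 - 2 * m.1 ^ 3), ?_⟩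
    rw [eq_inv_iff_mul_eq_one, aff_mul, ← aff_zero]
    congr 1
    ext <;> simp <;> ring

abbrev V : Type := Fin 3 → ℝ

def IndefMetric (B : LinearMap.BilinForm ℝ V) : Prop :=
  (∀ v w, B v w = B w v) ∧ (∀ v, (∀ w, B v w = 0) → v = 0) ∧ (∃ v, 0 < B v v) ∧ ∃ v, B v v < 0

def FreeProperCocompact (Γ : Subgroup (V ≃ᵃ[ℝ] V)) : Prop :=
  (∀ γ ∈ Γ, ∀ x, γ x = x → γ = 1) ∧
  (∀ K : Set V, IsCompact K → {γ | γ ∈ Γ ∧ ((γ '' K) ∩ K).Nonempty}.Finite) ∧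
  ∃ K : Set V, IsCompact K ∧ ∀ x, ∃ γ ∈ Γ, γ x ∈ K

def PreservesMetric (Γ : Subgroup (V ≃ᵃ[ℝ] V)) (B : LinearMap.BilinForm ℝ V) : Prop :=
  ∀ γ ∈ Γ, ∀ v w, B (γ.linear v) (γ.linear w) = B v w

def PreservesForm (Γ : Subgroup (V ≃ᵃ[ℝ] V)) (η : V → V →L[ℝ] ℝ) : Prop :=
  ∀ γ ∈ Γ, ∀ x v, η (γ x) (γ.linear v) = η x v

def AffineAlong (η : V → V →L[ℝ] ℝ) (p v : V) (C₁ : ℝ) : Prop :=
  ∃ C₂ : ℝ, ∀ t : ℝ, η (p + t • v) v = C₁ * t + C₂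

theorem result : ∃ (B : LinearMap.BilinForm ℝ V) (Γ : Subgroup (V ≃ᵃ[ℝ] V)) (η : V → V →L[ℝ] ℝ),
    IndefMetric B ∧ PreservesMetric Γ B ∧ FreeProperCocompact Γ ∧ ContDiff ℝ ⊤ η ∧
    PreservesForm Γ η ∧ (∀ p v, v ≠ 0 → B v v = 0 → ∃ C₁, AffineAlong η p v C₁) ∧
    ∃ p v, v ≠ 0 ∧ B v v = 0 ∧ ∃ C₁, C₁ ≠ 0 ∧ AffineAlong η p v C₁ := by
  refine ⟨LinearMap.mk₂ ℝ (fun v w => v 1 * w 1 - v 0 * w 2 - v 2 * w 0)
      (fun _ _ _ => by simp; ring) (fun _ _ _ => by simp; ring)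
      (fun _ _ _ => by simp; ring) (fun _ _ _ => by simp; ring), Gam,
    fun x => ContinuousLinearMap.proj 1 - (2 * x 0) • ContinuousLinearMap.proj 0,
    ⟨fun v w => by simp; ring, fun v h => ?_, ⟨![0, 1, 0], by simp⟩, ⟨![1, 0, 1], by simp⟩⟩,
    ?_, ⟨?_, ?_, ?_⟩, by fun_prop, ?_, fun p v _ _ => ⟨-2 * v 0 ^ 2, v 1 - 2 * p 0 * v 0, fun t => by
      simp; ring⟩, ⟨0, ![1, 0, 0], by simp, by simp, -2, by norm_num, 0, fun t => by simp⟩⟩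
  · have h0 := h ![0, 0, 1]
    have h1 := h ![0, 1, 0]
    have h2 := h ![1, 0, 0]
    ext i
    fin_cases i <;> simp_all
  · rintro _ ⟨m, rfl⟩ v w
    simp [aff_lin]
    ring
  · rintro _ ⟨⟨k, b, c⟩, rfl⟩ x h
    have h0 := congrFun h 0
    have h1 := congrFun h 1
    have h2 := congrFun h 2
    simp [aff_apply] at h0
    simp [aff_apply, h0] at h1 h2
    rw [h0, h1, h2]
    exact aff_zero
  · intro K hK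
    obtain ⟨R, hR⟩ := hK.isBounded.exists_norm_le
    obtain ⟨N, hN⟩ := exists_nat_ge R
    have hb : ∀ x ∈ K, ∀ i, -(N : ℝ) ≤ x i ∧ x i ≤ N := fun x hx i =>
      abs_le.1 ((norm_le_pi_norm x i).trans ((hR x hx).trans hN))
    refine ((Set.finite_Icc (α := ℤ × ℤ × ℤ) (-(2 * N), -(2 * N + 4 * N ^ 2),
      -(2 * N + 4 * N ^ 2 + 8 * N ^ 3)) (2 * N, 2 * N + 4 * N ^ 2,
      2 * N + 4 * N ^ 2 + 8 * N ^ 3)).image aff).subset ?_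
    rintro _ ⟨⟨⟨k, b, c⟩, rfl⟩, _, ⟨x, hx, rfl⟩, hy⟩
    refine ⟨_, ?_, rfl⟩
    have x0 := hb x hx 0
    have x1 := hb x hx 1
    have x2 := hb x hx 2
    have y0 := hb _ hy 0
    have y1 := hb _ hy 1
    have y2 := hb _ hy 2
    simp [aff_apply] at y0 y1 y2
    have hk : |(k : ℝ)| ≤ 2 * N := abs_le.2 ⟨by linarith [x0.2, y0.1], by linarith [x0.1, y0.2]⟩
    have e1 : ∀ u : ℝ, -(N : ℝ) ≤ u ∧ u ≤ N → |2 * k * u| ≤ 4 * N ^ 2 := fun u hu => by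
      rw [abs_mul, abs_mul, abs_two]
      nlinarith [abs_le.2 hu, abs_nonneg u, abs_nonneg (k : ℝ)]
    have e2 : |2 * (k : ℝ) ^ 2 * x 0| ≤ 8 * (N : ℝ) ^ 3 := by
      rw [show 2 * (k : ℝ) ^ 2 * x 0 = k * (2 * k * x 0) by ring, abs_mul]
      nlinarith [e1 _ x0, abs_nonneg (2 * k * x 0), abs_nonneg (k : ℝ), sq_nonneg (N : ℝ)]
    have a0 := abs_le.1 hk
    have a1 := abs_le.1 (e1 _ x0)
    have a2 := abs_le.1 (e1 _ x1)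
    have a3 := abs_le.1 e2
    simp only [Set.mem_Icc, Prod.mk_le_mk]
    refine ⟨⟨?_, ?_, ?_⟩, ?_, ?_, ?_⟩ <;> rw [← Int.cast_le (R := ℝ)] <;> push_cast <;>
      linarith [x0.1, x0.2, x1.1, x1.2, x2.1, x2.2, y1.1, y1.2, y2.1, y2.2]
  · refine ⟨Set.Icc 0 1, isCompact_Icc, fun x => ?_⟩
    refine ⟨aff (-⌊x 0⌋, -⌊x 1 + 2 * (-⌊x 0⌋ : ℤ) * x 0⌋,
      -⌊x 2 + 2 * (-⌊x 0⌋ : ℤ) * x 1 + 2 * (-⌊x 0⌋ : ℤ) ^ 2 * x 0⌋), ⟨_, rfl⟩, ?_⟩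
    rw [aff_apply]
    have h : ∀ u : ℝ, 0 ≤ u + (-⌊u⌋ : ℤ) ∧ u + (-⌊u⌋ : ℤ) ≤ 1 := fun u => by
      push_cast
      constructor <;> linarith [Int.floor_le u, Int.lt_floor_add_one u]
    constructor <;> intro i <;> fin_cases i
    exacts [(h _).1, (h _).1, (h _).1, (h _).2, (h _).2, (h _).2]
  · rintro _ ⟨m, rfl⟩ x v
    simp [aff_lin, aff_apply]
    ring

end Pool.Agent.Results.MP_64c48d_gt.FlatNil
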